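import Mathlib

open Finset

namespace Pool.Agent.V11268.QP

/-- one-variable polynomial functions of degree at most `k` -/
def PD {F : Type*} [Field F] (k : ℕ) (φ : F → F) : Prop :=
  ∃ P : Polynomial F, P.natDegree ≤ k ∧ ∀ t, φ t = P.eval t

section PD
variable {F : Type*} [Field F]

lemma PD_sum {k : ℕ} {T : Type*} (s : Finset T) (f : T → F → F) (h : ∀ a ∈ s, PD k (f a)) :
    PD k (fun t => ∑ a ∈ s, f a t) := by
  classical
  induction s using Finset.induction_on with
  | empty => exact ⟨0, by simp, by simp⟩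
  | insert a s ha ih =>
    obtain ⟨P, hP, hP'⟩ := ih (fun b hb => h b (Finset.mem_insert_of_mem hb))
    obtain ⟨R, hR, hR'⟩ := h a (Finset.mem_insert_self a s)
    refine ⟨R + P, (Polynomial.natDegree_add_le _ _).trans (max_le hR hP), fun t => ?_⟩
    have h1 := hP' t
    simp only at h1 ⊢
    rw [Finset.sum_insert ha, h1, hR' t, Polynomial.eval_add]

lemma PD_smul {k : ℕ} (c : F) (f : F → F) (h : PD k f) : PD k (fun t => c * f t) := by
  obtain ⟨P, hP, hP'⟩ := h
  refine ⟨Polynomial.C c * P, (Polynomial.natDegree_C_mul_le _ _).trans hP, fun t => ?_⟩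
  simp only
  rw [hP' t, Polynomial.eval_mul, Polynomial.eval_C]

lemma PD_sub {k : ℕ} (f g : F → F) (hf : PD k f) (hg : PD k g) : PD k (fun t => f t - g t) := by
  obtain ⟨P, hP, hP'⟩ := hf
  obtain ⟨R, hR, hR'⟩ := hg
  refine ⟨P - R, (Polynomial.natDegree_sub_le _ _).trans (max_le hP hR), fun t => ?_⟩
  simp only
  rw [hP' t, hR' t, Polynomial.eval_sub]

end PD

/-- interpolation: the coefficients of a polynomial of degree `≤ k` are fixed linear combinations
of its values at `0, …, k` -/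
lemma interp {p : ℕ} [Fact p.Prime] {k : ℕ} (hk : k < p) :
    ∃ L : Fin (k + 1) → Fin (k + 1) → ZMod p, ∀ φ : ZMod p → ZMod p, PD k φ →
      ∀ t, φ t = ∑ j : Fin (k + 1), t ^ (j : ℕ) * ∑ a : Fin (k + 1), L j a * φ ((a : ℕ) : ZMod p) := by
  set V : Matrix (Fin (k + 1)) (Fin (k + 1)) (ZMod p) :=
    Matrix.vandermonde (fun a : Fin (k + 1) => ((a : ℕ) : ZMod p)) with hV
  have hdet : V.det ≠ 0 := by
    rw [hV, Matrix.det_vandermonde_ne_zero_iff]
    intro a b hab
    have h1 : ((a : ℕ) : ZMod p) = ((b : ℕ) : ZMod p) := hab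
    rw [ZMod.natCast_eq_natCast_iff'] at h1
    rw [Nat.mod_eq_of_lt (by omega), Nat.mod_eq_of_lt (by omega)] at h1
    exact Fin.ext h1
  refine ⟨fun j a => V⁻¹ j a, ?_⟩
  rintro φ ⟨P, hP, hP'⟩ t
  have key : V.mulVec (fun j : Fin (k + 1) => P.coeff j) =
      fun a : Fin (k + 1) => φ ((a : ℕ) : ZMod p) := by
    ext a
    rw [hP' _, Polynomial.eval_eq_sum_range' (Nat.lt_succ_of_le hP), Matrix.mulVec, dotProduct,
      ← Fin.sum_univ_eq_sum_range (fun i => P.coeff i * (((a : ℕ) : ZMod p)) ^ i) (k + 1)]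
    refine Finset.sum_congr rfl fun j _ => ?_
    rw [hV, Matrix.vandermonde_apply]
    ring
  have key2 : V⁻¹.mulVec (fun a : Fin (k + 1) => φ ((a : ℕ) : ZMod p)) =
      (fun j : Fin (k + 1) => P.coeff j) := by
    rw [← key, Matrix.mulVec_mulVec, Matrix.nonsing_inv_mul _ (Ne.isUnit hdet), Matrix.one_mulVec]
  rw [hP' t, Polynomial.eval_eq_sum_range' (Nat.lt_succ_of_le hP),
    ← Fin.sum_univ_eq_sum_range (fun i => P.coeff i * t ^ i) (k + 1)]
  refine Finset.sum_congr rfl fun j _ => ?_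
  have := congrFun key2 j
  simp only [Matrix.mulVec, dotProduct] at this
  rw [this]
  ring

/-- separately polynomial of degree `≤ k` implies polynomial -/
lemma sep {p : ℕ} [Fact p.Prime] {k : ℕ} (hk : k < p) (m : ℕ) (G : (Fin m → ZMod p) → ZMod p)
    (hG : ∀ z i, PD k (fun t => G (Function.update z i t))) :
    ∃ c : (Fin m → Fin (k + 1)) → ZMod p, ∀ z, G z = ∑ α, c α * ∏ i, z i ^ (α i : ℕ) := by
  induction m with
  | zero =>
    refine ⟨fun _ => G 0, fun z => ?_⟩
    have : z = 0 := by ext i; exact i.elim0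
    simp [this]
  | succ m ih =>
    obtain ⟨L, hL⟩ := interp (p := p) hk
    have h0 : ∀ (t : ZMod p) (z' : Fin m → ZMod p), G (Fin.cons t z') =
        ∑ j : Fin (k + 1), t ^ (j : ℕ) * ∑ a : Fin (k + 1), L j a *
          G (Fin.cons ((a : ℕ) : ZMod p) z') := by
      intro t z'
      have h1 := hG (Fin.cons 0 z') 0
      have h2 := hL _ h1 t
      simpa only [Fin.update_cons_zero] using h2
    have h3 : ∀ j : Fin (k + 1), ∃ c : (Fin m → Fin (k + 1)) → ZMod p, ∀ z' : Fin m → ZMod p,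
        (∑ a : Fin (k + 1), L j a * G (Fin.cons ((a : ℕ) : ZMod p) z')) =
          ∑ α, c α * ∏ i, z' i ^ (α i : ℕ) := by
      intro j
      apply ih
      intro z' i
      apply PD_sum
      intro a _
      apply PD_smul
      have := hG (Fin.cons ((a : ℕ) : ZMod p) z') i.succ
      simpa only [← Fin.cons_update] using this
    choose c hc using h3
    refine ⟨fun α => c (α 0) (fun i => α i.succ), fun z => ?_⟩
    have hz : z = Fin.cons (z 0) (Fin.tail z) := (Fin.cons_self_tail z).symm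
    rw [hz, h0, ← (Fin.consEquiv (fun _ : Fin (m + 1) => Fin (k + 1))).sum_comp,
      Fintype.sum_prod_type]
    refine Finset.sum_congr rfl fun j _ => ?_
    rw [hc j, Finset.mul_sum]
    refine Finset.sum_congr rfl fun α _ => ?_
    rw [Fin.prod_univ_succ]
    simp only [Fin.consEquiv_apply, Fin.cons_zero, Fin.cons_succ]
    ring

/-- Comparing two one-sided expansions. -/
lemma cmp {p : ℕ} [Fact p.Prime] {T : Type*} [Fintype T] (N : ℕ) (hN : 2 * N + 2 < p)
    (j n : T → ℕ) (hj : ∀ τ, j τ ≤ N) (hn : ∀ τ, n τ ≤ N) (u u' : T → ZMod p) (κ : ZMod p)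
    (hκ : κ ≠ 0)
    (h : ∀ y : ZMod p, y ≠ 0 → ∑ τ, u τ * (y ^ (j τ) * y⁻¹ ^ (n τ)) =
      ∑ τ, u' τ * ((κ * y⁻¹) ^ (j τ) * ((κ * y⁻¹)⁻¹) ^ (n τ))) :
    ∀ y : ZMod p, y ≠ 0 → ∑ τ, u τ * (y ^ (j τ) * y⁻¹ ^ (n τ)) =
      (∑ τ, if n τ ≤ j τ then u τ * y ^ (j τ - n τ) else 0) +
      (∑ τ, if n τ < j τ then u' τ * (κ * y⁻¹) ^ (j τ - n τ) else 0) := by
  classical
  let P : Polynomial (ZMod p) :=
    (∑ τ, if j τ ≤ n τ then Polynomial.C (u' τ * κ⁻¹ ^ (n τ - j τ)) * Polynomial.X ^ (n τ - j τ)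
      else 0) - (∑ τ, if n τ ≤ j τ then Polynomial.C (u τ) * Polynomial.X ^ (j τ - n τ) else 0)
  let Q : Polynomial (ZMod p) :=
    (∑ τ, if j τ < n τ then Polynomial.C (u τ) * Polynomial.X ^ (N + 1 - (n τ - j τ))
      else 0) - (∑ τ, if n τ < j τ then Polynomial.C (u' τ * κ ^ (j τ - n τ)) *
        Polynomial.X ^ (N + 1 - (j τ - n τ)) else 0)
  have e1 : ∀ y : ZMod p, y ≠ 0 → P.eval y = ∑ τ, u τ * (y ^ (j τ) * y⁻¹ ^ (n τ)) -
      (∑ τ, if n τ ≤ j τ then u τ * y ^ (j τ - n τ) else 0) -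
      (∑ τ, if n τ < j τ then u' τ * (κ * y⁻¹) ^ (j τ - n τ) else 0) := by
    intro y hy
    rw [h y hy]
    simp only [P, Polynomial.eval_sub, Polynomial.eval_finsetSum]
    have : ∀ τ, (u' τ * ((κ * y⁻¹) ^ (j τ) * ((κ * y⁻¹)⁻¹) ^ (n τ))) =
        (Polynomial.eval y (if j τ ≤ n τ then Polynomial.C (u' τ * κ⁻¹ ^ (n τ - j τ)) *
          Polynomial.X ^ (n τ - j τ) else 0)) +
        (if n τ < j τ then u' τ * (κ * y⁻¹) ^ (j τ - n τ) else 0) := by
      intro τ
      have hx : κ * y⁻¹ ≠ 0 := mul_ne_zero hκ (inv_ne_zero hy)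
      by_cases hc : j τ ≤ n τ
      · rw [if_pos hc, if_neg (by omega)]
        simp only [Polynomial.eval_mul, Polynomial.eval_C, Polynomial.eval_pow, Polynomial.eval_X]
        obtain ⟨r, hr⟩ := Nat.exists_eq_add_of_le hc
        rw [hr]
        have : (κ * y⁻¹) ^ j τ * ((κ * y⁻¹)⁻¹) ^ (j τ + r) = ((κ * y⁻¹)⁻¹) ^ r := by
          rw [pow_add, ← mul_assoc, ← mul_pow, mul_inv_cancel₀ hx, one_pow, one_mul]
        rw [this, mul_inv, inv_inv, mul_pow]
        simp only [Nat.add_sub_cancel_left]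
        ring
      · rw [if_neg hc, if_pos (by omega)]
        simp only [Polynomial.eval_zero, zero_add]
        obtain ⟨r, hr⟩ := Nat.exists_eq_add_of_le (Nat.le_of_lt (not_le.mp hc))
        rw [hr]
        have : (κ * y⁻¹) ^ (n τ + r) * ((κ * y⁻¹)⁻¹) ^ (n τ) = ((κ * y⁻¹)) ^ r := by
          rw [pow_add, mul_right_comm, ← mul_pow, mul_inv_cancel₀ hx, one_pow, one_mul]
        rw [this]
        simp only [Nat.add_sub_cancel_left]
    rw [Finset.sum_congr rfl fun τ _ => this τ, Finset.sum_add_distrib]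
    have h2 : ∀ τ, Polynomial.eval y (if n τ ≤ j τ then Polynomial.C (u τ) *
        Polynomial.X ^ (j τ - n τ) else 0) = if n τ ≤ j τ then u τ * y ^ (j τ - n τ) else 0 := by
      intro τ
      split_ifs <;> simp
    rw [Finset.sum_congr rfl fun τ _ => h2 τ]
    ring
  have e2 : ∀ y : ZMod p, y ≠ 0 → Q.eval y = y ^ (N + 1) *
      (∑ τ, u τ * (y ^ (j τ) * y⁻¹ ^ (n τ)) -
      (∑ τ, if n τ ≤ j τ then u τ * y ^ (j τ - n τ) else 0) -
      (∑ τ, if n τ < j τ then u' τ * (κ * y⁻¹) ^ (j τ - n τ) else 0)) := by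
    intro y hy
    simp only [Q, Polynomial.eval_sub, Polynomial.eval_finsetSum]
    have h1 : ∀ τ, (u τ * (y ^ (j τ) * y⁻¹ ^ (n τ))) =
        (if j τ < n τ then u τ * y⁻¹ ^ (n τ - j τ) else 0) +
        (if n τ ≤ j τ then u τ * y ^ (j τ - n τ) else 0) := by
      intro τ
      by_cases hc : n τ ≤ j τ
      · rw [if_pos hc, if_neg (by omega)]
        obtain ⟨r, hr⟩ := Nat.exists_eq_add_of_le hc
        rw [hr]
        have : y ^ (n τ + r) * y⁻¹ ^ (n τ) = y ^ r := by
          rw [pow_add, mul_right_comm, ← mul_pow, mul_inv_cancel₀ hy, one_pow, one_mul]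
        rw [this, Nat.add_sub_cancel_left, zero_add]
      · rw [if_neg hc, if_pos (by omega)]
        obtain ⟨r, hr⟩ := Nat.exists_eq_add_of_le (Nat.le_of_lt (not_le.mp hc))
        rw [hr]
        have : y ^ (j τ) * y⁻¹ ^ (j τ + r) = y⁻¹ ^ r := by
          rw [pow_add, ← mul_assoc, ← mul_pow, mul_inv_cancel₀ hy, one_pow, one_mul]
        rw [this, Nat.add_sub_cancel_left, add_zero]
    rw [Finset.sum_congr rfl fun τ _ => h1 τ, Finset.sum_add_distrib, add_sub_cancel_right,
      mul_sub, Finset.mul_sum, Finset.mul_sum]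
    congr 1
    · refine Finset.sum_congr rfl fun τ _ => ?_
      split_ifs with hc
      · simp only [Polynomial.eval_mul, Polynomial.eval_C, Polynomial.eval_pow, Polynomial.eval_X]
        have : N + 1 = (N + 1 - (n τ - j τ)) + (n τ - j τ) := by
          have := hn τ; omega
        have h3 : y ^ (N + 1) = y ^ (N + 1 - (n τ - j τ)) * y ^ (n τ - j τ) := by
          rw [← pow_add]; congr 1
        rw [h3]
        have h4 : y ^ (n τ - j τ) * y⁻¹ ^ (n τ - j τ) = 1 := by
          rw [← mul_pow, mul_inv_cancel₀ hy, one_pow]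
        linear_combination (-(u τ) * y ^ (N + 1 - (n τ - j τ))) * h4
      · simp
    · refine Finset.sum_congr rfl fun τ _ => ?_
      split_ifs with hc
      · simp only [Polynomial.eval_mul, Polynomial.eval_C, Polynomial.eval_pow, Polynomial.eval_X]
        have : N + 1 = (N + 1 - (j τ - n τ)) + (j τ - n τ) := by
          have := hj τ; omega
        have h3 : y ^ (N + 1) = y ^ (N + 1 - (j τ - n τ)) * y ^ (j τ - n τ) := by
          rw [← pow_add]; congr 1
        rw [h3, mul_pow]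
        have h4 : y ^ (j τ - n τ) * y⁻¹ ^ (j τ - n τ) = 1 := by
          rw [← mul_pow, mul_inv_cancel₀ hy, one_pow]
        linear_combination (-(u' τ) * κ ^ (j τ - n τ) * y ^ (N + 1 - (j τ - n τ))) * h4
      · simp
  have dP : P.natDegree ≤ N := by
    refine (Polynomial.natDegree_sub_le _ _).trans (max_le ?_ ?_)
    · refine Polynomial.natDegree_sum_le_of_forall_le _ _ fun τ _ => ?_
      split_ifs
      · refine (Polynomial.natDegree_C_mul_X_pow_le _ _).trans ?_
        have := hn τ; omega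
      · simp
    · refine Polynomial.natDegree_sum_le_of_forall_le _ _ fun τ _ => ?_
      split_ifs
      · refine (Polynomial.natDegree_C_mul_X_pow_le _ _).trans ?_
        have := hj τ; omega
      · simp
  have dQ : Q.natDegree ≤ N := by
    refine (Polynomial.natDegree_sub_le _ _).trans (max_le ?_ ?_)
    · refine Polynomial.natDegree_sum_le_of_forall_le _ _ fun τ _ => ?_
      split_ifs
      · refine (Polynomial.natDegree_C_mul_X_pow_le _ _).trans ?_
        have := hn τ; omega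
      · simp
    · refine Polynomial.natDegree_sum_le_of_forall_le _ _ fun τ _ => ?_
      split_ifs
      · refine (Polynomial.natDegree_C_mul_X_pow_le _ _).trans ?_
        have := hj τ; omega
      · simp
  have hR : P * Polynomial.X ^ (N + 1) - Q = 0 := by
    apply Polynomial.eq_zero_of_natDegree_lt_card_of_eval_eq_zero' _
      (Finset.univ.erase (0 : ZMod p))
    · intro y hy
      have hy0 : y ≠ 0 := (Finset.mem_erase.mp hy).1
      rw [Polynomial.eval_sub, Polynomial.eval_mul, Polynomial.eval_pow, Polynomial.eval_X,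
        e1 y hy0, e2 y hy0]
      ring
    · rw [Finset.card_erase_of_mem (Finset.mem_univ _), Finset.card_univ, ZMod.card]
      have h1 : (P * Polynomial.X ^ (N + 1) - Q).natDegree ≤ 2 * N + 1 := by
        refine (Polynomial.natDegree_sub_le _ _).trans (max_le ?_ (by omega))
        refine Polynomial.natDegree_mul_le.trans ?_
        rw [Polynomial.natDegree_X_pow]
        omega
      omega
  have hP0 : P = 0 := by
    ext i
    have h1 : (P * Polynomial.X ^ (N + 1)).coeff (i + (N + 1)) = P.coeff i :=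
      Polynomial.coeff_mul_X_pow _ _ _
    have h2 : P * Polynomial.X ^ (N + 1) = Q := sub_eq_zero.mp hR
    rw [h2] at h1
    rw [← h1, Polynomial.coeff_zero]
    apply Polynomial.coeff_eq_zero_of_natDegree_lt
    omega
  intro y hy
  have := e1 y hy
  rw [hP0, Polynomial.eval_zero] at this
  linear_combination -this

end Pool.Agent.V11268.QP
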