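import Mathlib
import Pool.Agent.V11268.QP.Poly

open Finset

namespace Pool.Agent.V11268.QP

variable {p : ℕ} [Fact p.Prime]

/-- `g` is polynomial of degree `≤ k` on every line contained in `{xy + q(z) = 0}`. -/
def LP {m : ℕ} (k : ℕ) (q : QuadraticForm (ZMod p) (Fin m → ZMod p))
    (g : ZMod p → ZMod p → (Fin m → ZMod p) → ZMod p) : Prop :=
  ∀ (x y : ZMod p) (z : Fin m → ZMod p) (a b : ZMod p) (w : Fin m → ZMod p),
    (∀ t : ZMod p, (x + t * a) * (y + t * b) + q (z + t • w) = 0) →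
    PD k (fun t => g (x + t * a) (y + t * b) (z + t • w))

lemma LP_swap {m k : ℕ} {q : QuadraticForm (ZMod p) (Fin m → ZMod p)}
    {g : ZMod p → ZMod p → (Fin m → ZMod p) → ZMod p} (h : LP k q g) :
    LP k q (fun x y z => g y x z) := by
  intro x y z a b w hl
  apply h y x z b a w
  intro t
  rw [mul_comm]
  exact hl t

lemma q_add {m : ℕ} (q : QuadraticForm (ZMod p) (Fin m → ZMod p)) {e : Fin m → ZMod p}
    (he : q e = 0) (z : Fin m → ZMod p) (t : ZMod p) :
    q (z + t • e) = q z + t * QuadraticMap.polar q z e := by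
  rw [QuadraticMap.map_add q, QuadraticMap.map_smul, he, QuadraticMap.polar_smul_right]
  simp

lemma q_smul {m : ℕ} (q : QuadraticForm (ZMod p) (Fin m → ZMod p)) (z : Fin m → ZMod p)
    (t : ZMod p) : q (t • z) = t * t * q z := by
  rw [QuadraticMap.map_smul, smul_eq_mul]

/-- expansion on the chart `y ≠ 0` -/
lemma chart {m k : ℕ} (hk : k < p) (q : QuadraticForm (ZMod p) (Fin m → ZMod p))
    (hq : ∀ i, q (Pi.single i 1) = 0)
    (g : ZMod p → ZMod p → (Fin m → ZMod p) → ZMod p) (hg : LP k q g) :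
    ∃ c : Fin (k + 1) → (Fin m → Fin (k + 1)) → ZMod p, ∀ x y z, y ≠ 0 → x * y + q z = 0 →
      g x y z = ∑ j, ∑ α, c j α * (∏ i, z i ^ (α i : ℕ)) *
        (y ^ (j : ℕ) * y⁻¹ ^ (∑ i, (α i : ℕ))) := by
  obtain ⟨L, hL⟩ := interp (p := p) hk
  -- the point on the chart
  have h1 : ∀ ζ : Fin m → ZMod p, PD k (fun t => g (t * (-q ζ)) t (t • ζ)) := by
    intro ζ
    have := hg 0 0 0 (-q ζ) 1 ζ (by
      intro t
      rw [zero_add, zero_add, zero_add, q_smul]
      ring)
    simpa using this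
  have h2 : ∀ (a : ZMod p) (ζ : Fin m → ZMod p) (i : Fin m),
      PD k (fun t => g (a * (-q (Function.update ζ i t))) a (a • Function.update ζ i t)) := by
    intro a ζ i
    set ζ0 := Function.update ζ i 0 with hζ0
    have hup : ∀ t, Function.update ζ i t = ζ0 + t • Pi.single i 1 := by
      intro t
      ext l
      by_cases hl : l = i
      · subst hl; simp [hζ0]
      · simp [hζ0, hl]
    have := hg (a * (-q ζ0)) a (a • ζ0) (-(a * QuadraticMap.polar q ζ0 (Pi.single i 1))) 0
      (a • Pi.single i 1) (by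
        intro t
        have e1 : a • ζ0 + t • a • (Pi.single i (1 : ZMod p) : Fin m → ZMod p) =
          a • (ζ0 + t • (Pi.single i (1 : ZMod p) : Fin m → ZMod p)) := by
          rw [smul_add, smul_comm a t]
        rw [e1, q_smul, q_add q (hq i)]
        ring)
    have e2 : (fun t => g (a * (-q (Function.update ζ i t))) a (a • Function.update ζ i t)) =
      (fun t => g (a * (-q ζ0) + t * (-(a * QuadraticMap.polar q ζ0 (Pi.single i 1))))
        (a + t * 0) (a • ζ0 + t • (a • Pi.single i 1))) := by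
      funext t
      rw [hup t, q_add q (hq i)]
      congr 1
      · ring
      · ring
      · rw [smul_add, smul_comm a t]
    rw [e2]
    exact this
  have h3 : ∀ j : Fin (k + 1), ∃ c : (Fin m → Fin (k + 1)) → ZMod p, ∀ ζ : Fin m → ZMod p,
      (∑ a : Fin (k + 1), L j a * g (((a : ℕ) : ZMod p) * (-q ζ)) ((a : ℕ) : ZMod p)
        (((a : ℕ) : ZMod p) • ζ)) = ∑ α, c α * ∏ i, ζ i ^ (α i : ℕ) := by
    intro j
    apply sep hk
    intro z i
    apply PD_sum
    intro a _
    apply PD_smul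
    exact h2 _ z i
  choose c hc using h3
  refine ⟨c, fun x y z hy hxy => ?_⟩
  have hx : x = y * (-q (y⁻¹ • z)) := by
    rw [q_smul]
    field_simp
    linear_combination hxy
  have hz : z = y • (y⁻¹ • z) := by rw [smul_smul, mul_inv_cancel₀ hy, one_smul]
  have h4 := hL _ (h1 (y⁻¹ • z)) y
  rw [← hx, ← hz] at h4
  rw [h4]
  refine Finset.sum_congr rfl fun j _ => ?_
  rw [hc j, Finset.mul_sum]
  refine Finset.sum_congr rfl fun α _ => ?_
  simp only [Pi.smul_apply, smul_eq_mul]
  have : ∏ i, (y⁻¹ * z i) ^ (α i : ℕ) = y⁻¹ ^ (∑ i, (α i : ℕ)) * ∏ i, z i ^ (α i : ℕ) := by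
    rw [← Finset.prod_pow_eq_pow_sum, ← Finset.prod_mul_distrib]
    refine Finset.prod_congr rfl fun i _ => ?_
    rw [mul_pow]
  rw [this]
  ring

/-- a polynomial of degree `≤ k` vanishing off `0` vanishes at `0` -/
lemma PD_zero {k : ℕ} (hk : k + 1 < p) {φ : ZMod p → ZMod p} (h : PD k φ)
    (h0 : ∀ t, t ≠ 0 → φ t = 0) : φ 0 = 0 := by
  obtain ⟨P, hP, hP'⟩ := h
  have : P = 0 := by
    apply Polynomial.eq_zero_of_natDegree_lt_card_of_eval_eq_zero' _
      (Finset.univ.erase (0 : ZMod p))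
    · intro y hy
      rw [← hP' y, h0 y (Finset.mem_erase.mp hy).1]
    · rw [Finset.card_erase_of_mem (Finset.mem_univ _), Finset.card_univ, ZMod.card]
      omega
  rw [hP' 0, this, Polynomial.eval_zero]

/-- vanishing on `xy ≠ 0` implies vanishing on `y ≠ 0`. -/
lemma ext_y {m k : ℕ} (hk : k + 1 < p) (q : QuadraticForm (ZMod p) (Fin m → ZMod p))
    (hq : ∀ i, q (Pi.single i 1) = 0) (i0 i1 : Fin m)
    (hi : QuadraticMap.polar q (Pi.single i0 1) (Pi.single i1 1) ≠ 0)
    (f : ZMod p → ZMod p → (Fin m → ZMod p) → ZMod p) (hf : LP k q f)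
    (h0 : ∀ x y z, x ≠ 0 → y ≠ 0 → x * y + q z = 0 → f x y z = 0) :
    ∀ x y z, y ≠ 0 → x * y + q z = 0 → f x y z = 0 := by
  -- first case
  have case1 : ∀ y z i, y ≠ 0 → q z = 0 → QuadraticMap.polar q z (Pi.single i 1) ≠ 0 →
      f 0 y z = 0 := by
    intro y z i hy hz hzi
    set b := QuadraticMap.polar q z (Pi.single i 1) with hb
    have hpd := hf 0 y z (-(b / y)) 0 (Pi.single i 1) (by
      intro t
      rw [q_add q (hq i), hz, ← hb]
      field_simp
      ring)
    have := PD_zero hk hpd (by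
      intro t ht
      apply h0
      · rw [zero_add]
        exact mul_ne_zero ht (neg_ne_zero.mpr (div_ne_zero hzi hy))
      · simpa using hy
      · rw [q_add q (hq i), hz, ← hb]
        field_simp
        ring)
    simpa using this
  intro x y z hy hxy
  by_cases hx : x = 0
  · subst hx
    have hz : q z = 0 := by simpa using hxy
    by_cases hz1 : QuadraticMap.polar q z (Pi.single i0 1) ≠ 0
    · exact case1 y z i0 hy hz hz1
    · by_cases hz2 : QuadraticMap.polar q z (Pi.single i1 1) ≠ 0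
      · exact case1 y z i1 hy hz hz2
      · push Not at hz1 hz2
        have hpd := hf 0 y z 0 0 (Pi.single i0 1) (by
          intro t
          rw [q_add q (hq i0), hz, hz1]
          simp)
        have := PD_zero hk hpd (by
          intro t ht
          have e1 : (0 : ZMod p) + t * 0 = 0 := by ring
          have e2 : y + t * 0 = y := by ring
          rw [e1, e2]
          apply case1 y _ i1 hy
          · rw [q_add q (hq i0), hz, hz1]; simp
          · rw [QuadraticMap.polar_add_left, QuadraticMap.polar_smul_left, hz2, zero_add]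
            exact mul_ne_zero ht hi)
        simpa using this
  · exact h0 x y z hx hy hxy

lemma extend {m k : ℕ} (hk : k + 1 < p) (q : QuadraticForm (ZMod p) (Fin m → ZMod p))
    (hq : ∀ i, q (Pi.single i 1) = 0) (i0 i1 : Fin m)
    (hi : QuadraticMap.polar q (Pi.single i0 1) (Pi.single i1 1) ≠ 0)
    (f : ZMod p → ZMod p → (Fin m → ZMod p) → ZMod p) (hf : LP k q f)
    (h0 : ∀ x y z, x ≠ 0 → y ≠ 0 → x * y + q z = 0 → f x y z = 0) :
    ∀ x y z, x * y + q z = 0 → f x y z = 0 := by
  have hy := ext_y hk q hq i0 i1 hi f hf h0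
  have hx := ext_y hk q hq i0 i1 hi _ (LP_swap hf) (fun x y z hx hy hxy =>
    h0 y x z hy hx (by rw [mul_comm]; exact hxy))
  intro x y z hxy
  by_cases hy0 : y = 0
  · by_cases hx0 : x = 0
    · subst hx0 hy0
      have hz : q z = 0 := by simpa using hxy
      have hpd := hf 0 0 z 1 0 0 (by
        intro t
        simp [hz])
      have := PD_zero hk hpd (by
        intro t ht
        apply hx
        · simpa using ht
        · simp [hz])
      simpa using this
    · exact hx y x z hx0 (by rw [mul_comm]; exact hxy)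
  · exact hy x y z hy0 hxy

/-- The core: on the quadric `xy + q(z) = 0`. -/
theorem core {m k : ℕ} (hk : k + 1 < p) (hN : 2 * ((m + 1) * k) + 2 < p)
    (q : QuadraticForm (ZMod p) (Fin m → ZMod p))
    (hq : ∀ i, q (Pi.single i 1) = 0)
    (g : ZMod p → ZMod p → (Fin m → ZMod p) → ZMod p) (hg : LP k q g) :
    ∃ c c' : Fin (k + 1) → (Fin m → Fin (k + 1)) → ZMod p, ∀ x y z, x ≠ 0 → y ≠ 0 →
      x * y + q z = 0 →
      g x y z = (∑ j : Fin (k + 1), ∑ α, if (∑ i, (α i : ℕ)) ≤ (j : ℕ) then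
          c j α * (∏ i, z i ^ (α i : ℕ)) * y ^ ((j : ℕ) - ∑ i, (α i : ℕ)) else 0) +
        (∑ j : Fin (k + 1), ∑ α, if (∑ i, (α i : ℕ)) < (j : ℕ) then
          c' j α * (∏ i, z i ^ (α i : ℕ)) * x ^ ((j : ℕ) - ∑ i, (α i : ℕ)) else 0) := by
  obtain ⟨c, hc⟩ := chart (by omega) q hq g hg
  obtain ⟨c', hc'⟩ := chart (by omega) q hq _ (LP_swap hg)
  refine ⟨c, c', fun x y z hx hy hxy => ?_⟩
  have hqz : q z ≠ 0 := by
    intro h
    rw [h, add_zero] at hxy
    exact (mul_ne_zero hx hy) hxy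
  have hxy' : x = (-q z) * y⁻¹ := by
    field_simp
    linear_combination hxy
  have key := cmp (p := p) (T := Fin (k + 1) × (Fin m → Fin (k + 1))) ((m + 1) * k) hN
    (fun τ => (τ.1 : ℕ)) (fun τ => ∑ i, (τ.2 i : ℕ))
    (fun τ => by
      have := τ.1.isLt
      nlinarith [Nat.zero_le (m * k)])
    (fun τ => by
      have : ∑ i, (τ.2 i : ℕ) ≤ ∑ _i : Fin m, k :=
        Finset.sum_le_sum fun i _ => Nat.lt_succ_iff.mp (τ.2 i).isLt
      simp only [Finset.sum_const, Finset.card_univ, Fintype.card_fin, smul_eq_mul] at this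
      nlinarith)
    (fun τ => c τ.1 τ.2 * ∏ i, z i ^ (τ.2 i : ℕ))
    (fun τ => c' τ.1 τ.2 * ∏ i, z i ^ (τ.2 i : ℕ)) (-q z) (neg_ne_zero.mpr hqz) (by
      intro y hy
      have e1 := hc (-q z * y⁻¹) y z hy (by
        rw [mul_assoc, inv_mul_cancel₀ hy]; ring)
      have e2 := hc' y (-q z * y⁻¹) z (mul_ne_zero (neg_ne_zero.mpr hqz) (inv_ne_zero hy)) (by
        rw [mul_comm, mul_assoc, inv_mul_cancel₀ hy]; ring)
      rw [Fintype.sum_prod_type, Fintype.sum_prod_type]
      simp only
      rw [← e1, ← e2]) y hy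
  rw [Fintype.sum_prod_type, Fintype.sum_prod_type, Fintype.sum_prod_type] at key
  simp only at key
  rw [hc x y z hy hxy, key, ← hxy']

end Pool.Agent.V11268.QP
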