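import Mathlib

open Finset

namespace Pool.Agent.V11268.QP

variable {p : ℕ} [Fact p.Prime] {V : Type*} [AddCommGroup V] [Module (ZMod p) V]
  [FiniteDimensional (ZMod p) V]

/-- A quadratic form of rank at least three has a hyperbolic pair. -/
lemma hyp_pair (hp2 : p ≠ 2) (Q : QuadraticForm (ZMod p) V)
    (hr : Module.finrank (ZMod p) (LinearMap.ker Q.polarBilin) + 3 ≤
      Module.finrank (ZMod p) V) :
    ∃ v w : V, Q v = 0 ∧ Q w = 0 ∧ QuadraticMap.polar Q v w = 1 := by
  classical
  have h2 : (2 : ZMod p) ≠ 0 := by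
    intro h0
    have : ((2 : ℕ) : ZMod p) = 0 := by exact_mod_cast h0
    rw [ZMod.natCast_eq_zero_iff] at this
    exact hp2 ((Nat.prime_dvd_prime_iff_eq (Fact.out) Nat.prime_two).mp this)
  have : Invertible (2 : ZMod p) := invertibleOfNonzero h2
  obtain ⟨b, hb⟩ := LinearMap.BilinForm.exists_orthogonal_basis
    (B := (Q.polarBilin : LinearMap.BilinForm (ZMod p) V))
    ⟨fun x y => by simp [QuadraticMap.polar_comm]⟩
  have hb' : ∀ i j, i ≠ j → QuadraticMap.polar Q (b i) (b j) = 0 := by
    intro i j hij
    exact hb hij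
  set S : Finset (Fin (Module.finrank (ZMod p) V)) := Finset.univ.filter (fun i => Q (b i) ≠ 0)
    with hS
  have hker : ∀ i, i ∉ S → b i ∈ LinearMap.ker Q.polarBilin := by
    intro i hi
    have hi' : Q (b i) = 0 := by simpa [hS] using hi
    rw [LinearMap.mem_ker]
    apply b.ext
    intro j
    rw [QuadraticMap.polarBilin_apply_apply, LinearMap.zero_apply]
    by_cases hij : i = j
    · subst hij
      rw [QuadraticMap.polar_self, hi', smul_zero]
    · exact hb' i j hij
  have hcard : Fintype.card {i // i ∉ S} ≤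
      Module.finrank (ZMod p) (LinearMap.ker Q.polarBilin) := by
    have hli : LinearIndependent (ZMod p)
        (fun i : {i // i ∉ S} => (⟨b i, hker i i.2⟩ : LinearMap.ker Q.polarBilin)) := by
      have h1 : LinearIndependent (ZMod p) (fun i : {i // i ∉ S} => b i) :=
        b.linearIndependent.comp _ Subtype.val_injective
      exact LinearIndependent.of_comp (LinearMap.ker Q.polarBilin).subtype h1
    exact hli.fintype_card_le_finrank
  have hS3 : 2 < S.card := by
    have h1 : Fintype.card {i // i ∉ S} = Module.finrank (ZMod p) V - S.card := by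
      rw [Fintype.card_subtype_compl, Fintype.card_fin, Fintype.card_coe]
    rw [h1] at hcard
    omega
  obtain ⟨a1, ha1, a2, ha2, a3, ha3, h12, h13, h23⟩ := Finset.two_lt_card.mp hS3
  have hα : Q (b a1) ≠ 0 := (Finset.mem_filter.mp ha1).2
  have hβ : Q (b a2) ≠ 0 := (Finset.mem_filter.mp ha2).2
  have hγ : Q (b a3) ≠ 0 := (Finset.mem_filter.mp ha3).2
  obtain ⟨s, t, hst⟩ := FiniteField.exists_root_sum_quadratic (R := ZMod p)
    (f := Polynomial.C (Q (b a1)) * Polynomial.X ^ 2)
    (g := Polynomial.C (Q (b a2)) * Polynomial.X ^ 2 + Polynomial.C (Q (b a3)))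
    (Polynomial.degree_C_mul_X_pow 2 hα)
    (by
      rw [Polynomial.degree_add_eq_left_of_degree_lt]
      · exact Polynomial.degree_C_mul_X_pow 2 hβ
      · rw [Polynomial.degree_C_mul_X_pow 2 hβ]
        exact lt_of_le_of_lt Polynomial.degree_C_le (by norm_num))
    (by
      rw [ZMod.card]
      rcases (Fact.out : p.Prime).eq_two_or_odd with h | h
      · exact absurd h hp2
      · exact h)
  simp only [Polynomial.eval_add, Polynomial.eval_mul, Polynomial.eval_C, Polynomial.eval_pow,
    Polynomial.eval_X] at hst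
  set u : V := s • b a1 + (t • b a2 + b a3) with hu
  have hQu : Q u = 0 := by
    rw [hu, QuadraticMap.map_add Q, QuadraticMap.map_add Q, QuadraticMap.map_smul,
      QuadraticMap.map_smul, QuadraticMap.polar_smul_left, QuadraticMap.polar_smul_left,
      QuadraticMap.polar_add_right, QuadraticMap.polar_smul_right, hb' a1 a2 h12, hb' a1 a3 h13,
      hb' a2 a3 h23]
    simp only [smul_eq_mul]
    linear_combination hst
  have huc : QuadraticMap.polar Q u (b a3) = 2 * Q (b a3) := by
    rw [hu, QuadraticMap.polar_add_left, QuadraticMap.polar_add_left,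
      QuadraticMap.polar_smul_left, QuadraticMap.polar_smul_left, hb' a1 a3 h13,
      hb' a2 a3 h23, QuadraticMap.polar_self]
    simp
  have hne : (2 * Q (b a3)) ≠ 0 := mul_ne_zero h2 hγ
  obtain ⟨w0, hu0⟩ : ∃ w0, QuadraticMap.polar Q u w0 = 1 := by
    refine ⟨(2 * Q (b a3))⁻¹ • b a3, ?_⟩
    rw [QuadraticMap.polar_smul_right, huc, smul_eq_mul, inv_mul_cancel₀ hne]
  refine ⟨u, w0 - Q w0 • u, hQu, ?_, ?_⟩
  · rw [sub_eq_add_neg, QuadraticMap.map_add Q, QuadraticMap.map_neg, QuadraticMap.map_smul, hQu,
      QuadraticMap.polar_neg_right, QuadraticMap.polar_smul_right, QuadraticMap.polar_comm, hu0]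
    simp
  · rw [QuadraticMap.polar_sub_right, QuadraticMap.polar_smul_right, QuadraticMap.polar_self, hQu,
      hu0]
    simp

/-- With a hyperbolic pair the isotropic vectors span, so there is a basis of isotropic vectors. -/
lemma iso_basis (Q : QuadraticForm (ZMod p) V) {v w : V} (hv : Q v = 0) (hw : Q w = 0)
    (hvw : QuadraticMap.polar Q v w = 1) :
    ∃ b : Module.Basis (Fin (Module.finrank (ZMod p) V)) (ZMod p) V, (∀ i, Q (b i) = 0) ∧
      ∃ i0 i1, QuadraticMap.polar Q (b i0) (b i1) ≠ 0 := by
  classical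
  have hspan : (⊤ : Submodule (ZMod p) V) ≤ Submodule.span (ZMod p) {u | Q u = 0} := by
    intro u _
    set X := QuadraticMap.polar Q u w with hX
    set Y := QuadraticMap.polar Q u v with hY
    set u' := u - X • v - Y • w with hu'
    have h1 : QuadraticMap.polar Q u' v = 0 := by
      rw [hu', QuadraticMap.polar_sub_left, QuadraticMap.polar_sub_left,
        QuadraticMap.polar_smul_left, QuadraticMap.polar_smul_left, QuadraticMap.polar_self, hv,
        QuadraticMap.polar_comm Q w v, hvw, ← hY]
      simp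
    have h2 : QuadraticMap.polar Q u' w = 0 := by
      rw [hu', QuadraticMap.polar_sub_left, QuadraticMap.polar_sub_left,
        QuadraticMap.polar_smul_left, QuadraticMap.polar_smul_left, QuadraticMap.polar_self, hw,
        hvw, ← hX]
      simp
    have h3 : Q (u' + (w - Q u' • v)) = 0 := by
      rw [QuadraticMap.map_add Q, QuadraticMap.polar_sub_right, h2, QuadraticMap.polar_smul_right,
        h1, sub_eq_add_neg, QuadraticMap.map_add Q, QuadraticMap.map_neg, QuadraticMap.map_smul,
        hv, hw, QuadraticMap.polar_neg_right, QuadraticMap.polar_smul_right,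
        QuadraticMap.polar_comm Q w v, hvw]
      simp
    have h4 : u = (u' + (w - Q u' • v)) + (X + Q u') • v + (Y - 1) • w := by
      rw [hu']
      module
    rw [h4]
    refine Submodule.add_mem _ (Submodule.add_mem _ (Submodule.subset_span h3)
      (Submodule.smul_mem _ _ (Submodule.subset_span hv)))
      (Submodule.smul_mem _ _ (Submodule.subset_span hw))
  let b0 := Module.Basis.ofSpan hspan
  have hb0 : ∀ i, Q (b0 i) = 0 := by
    intro i
    exact Module.Basis.ofSpan_subset hspan ⟨i, rfl⟩
  have : Fintype _ := FiniteDimensional.fintypeBasisIndex b0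
  let e := Fintype.equivFinOfCardEq (Module.finrank_eq_card_basis b0).symm
  refine ⟨b0.reindex e, fun i => by rw [Module.Basis.reindex_apply]; exact hb0 _, ?_⟩
  by_contra hcon
  push Not at hcon
  have : Q.polarBilin = 0 := by
    apply (b0.reindex e).ext
    intro i
    apply (b0.reindex e).ext
    intro j
    rw [QuadraticMap.polarBilin_apply_apply]
    exact hcon i j
  have h5 : Q.polarBilin v w = 1 := hvw
  rw [this] at h5
  simp at h5

/-- Normal form `xy + q(z)` with `q` having an isotropic basis. -/
lemma normal_form (hp2 : p ≠ 2) (Q : QuadraticForm (ZMod p) V)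
    (hr : Module.finrank (ZMod p) (LinearMap.ker Q.polarBilin) + 5 ≤
      Module.finrank (ZMod p) V) :
    ∃ (m : ℕ) (_ : m + 1 ≤ Module.finrank (ZMod p) V) (v w : V) (ι : (Fin m → ZMod p) →ₗ[ZMod p] V)
      (X Y : V →ₗ[ZMod p] ZMod p) (Z : V →ₗ[ZMod p] (Fin m → ZMod p))
      (q : QuadraticForm (ZMod p) (Fin m → ZMod p)),
      (∀ n, n = X n • v + Y n • w + ι (Z n)) ∧
      (∀ x y z, Q (x • v + y • w + ι z) = x * y + q z) ∧
      (∀ i, q (Pi.single i 1) = 0) ∧
      ∃ i0 i1, QuadraticMap.polar q (Pi.single i0 1) (Pi.single i1 1) ≠ 0 := by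
  classical
  obtain ⟨v, w, hv, hw, hvw⟩ := hyp_pair hp2 Q (by omega)
  let X : V →ₗ[ZMod p] ZMod p := Q.polarBilin.flip w
  let Y : V →ₗ[ZMod p] ZMod p := Q.polarBilin.flip v
  have hX : ∀ n, X n = QuadraticMap.polar Q n w := fun n => rfl
  have hY : ∀ n, Y n = QuadraticMap.polar Q n v := fun n => rfl
  let W : Submodule (ZMod p) V := LinearMap.ker (X.prod Y)
  have hW : ∀ n, n ∈ W ↔ X n = 0 ∧ Y n = 0 := by
    intro n
    simp only [W, LinearMap.mem_ker, LinearMap.prod_apply, Function.prod, Prod.mk_eq_zero]
  have hXv : X v = 1 := hvw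
  have hXw : X w = 0 := by rw [hX, QuadraticMap.polar_self, hw, smul_zero]
  have hYv : Y v = 0 := by rw [hY, QuadraticMap.polar_self, hv, smul_zero]
  have hYw : Y w = 1 := by rw [hY, QuadraticMap.polar_comm]; exact hvw
  have hproj : ∀ n, n - X n • v - Y n • w ∈ W := by
    intro n
    rw [hW]
    constructor
    · rw [map_sub, map_sub, map_smul, map_smul, hXv, hXw]; simp
    · rw [map_sub, map_sub, map_smul, map_smul, hYv, hYw]; simp
  have hfinW : Module.finrank (ZMod p) V ≤ Module.finrank (ZMod p) W + 2 := by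
    have h1 := LinearMap.finrank_range_add_finrank_ker (X.prod Y)
    have h2 : Module.finrank (ZMod p) (LinearMap.range (X.prod Y)) ≤ 2 := by
      refine (Submodule.finrank_le _).trans ?_
      simp
    have h3 : Module.finrank (ZMod p) W =
      Module.finrank (ZMod p) (LinearMap.ker (X.prod Y)) := rfl
    omega
  have hvW : v ∉ W := by
    rw [hW]
    intro h
    rw [hXv] at h
    exact one_ne_zero h.1
  have hfinW2 : Module.finrank (ZMod p) W + 1 ≤ Module.finrank (ZMod p) V := by
    have : Module.finrank (ZMod p) W < Module.finrank (ZMod p) V := by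
      apply Submodule.finrank_lt
      intro h
      exact hvW (h ▸ Submodule.mem_top)
    omega
  let QW : QuadraticForm (ZMod p) W := Q.comp W.subtype
  have hQW : ∀ u : W, QW u = Q u := fun u => rfl
  have hQWp : ∀ u u' : W, QuadraticMap.polar QW u u' = QuadraticMap.polar Q u u' := fun u u' => rfl
  have hker : Module.finrank (ZMod p) (LinearMap.ker QW.polarBilin) ≤
      Module.finrank (ZMod p) (LinearMap.ker Q.polarBilin) := by
    rw [← Submodule.finrank_map_subtype_eq W (LinearMap.ker QW.polarBilin)]
    apply Submodule.finrank_mono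
    rintro _ ⟨u, hu, rfl⟩
    have hu' : ∀ u' : W, QuadraticMap.polar Q u u' = 0 := by
      intro u'
      have := LinearMap.congr_fun (LinearMap.mem_ker.mp hu) u'
      exact this
    rw [LinearMap.mem_ker]
    ext n
    rw [QuadraticMap.polarBilin_apply_apply, LinearMap.zero_apply]
    have h1 : n = (n - X n • v - Y n • w) + X n • v + Y n • w := by module
    rw [h1, QuadraticMap.polar_add_right, QuadraticMap.polar_add_right,
      QuadraticMap.polar_smul_right, QuadraticMap.polar_smul_right]
    have h2 := hu' ⟨_, hproj n⟩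
    have h3 := ((hW u).mp u.2)
    rw [hX, hY] at h3
    simp only [Submodule.subtype_apply]
    simp only at h2
    rw [h2, h3.1, h3.2]
    simp
  obtain ⟨v', w', hv', hw', hvw'⟩ := hyp_pair hp2 QW (by omega)
  obtain ⟨b, hb, i0, i1, hi⟩ := iso_basis QW hv' hw' hvw'
  let ι : (Fin (Module.finrank (ZMod p) W) → ZMod p) →ₗ[ZMod p] V :=
    W.subtype ∘ₗ b.equivFun.symm.toLinearMap
  let Pr : V →ₗ[ZMod p] W := LinearMap.codRestrict W
    (LinearMap.id - X.smulRight v - Y.smulRight w) (by
      intro n
      simpa using hproj n)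
  have hPr : ∀ n, ((Pr n : W) : V) = n - X n • v - Y n • w := by
    intro n
    simp [Pr]
  refine ⟨Module.finrank (ZMod p) W, hfinW2, v, w, ι, X, Y, b.equivFun.toLinearMap ∘ₗ Pr,
    Q.comp ι, ?_, ?_, ?_, i0, i1, ?_⟩
  · intro n
    have : ι ((b.equivFun.toLinearMap ∘ₗ Pr) n) = n - X n • v - Y n • w := by
      simp only [ι, LinearMap.comp_apply, LinearEquiv.coe_coe, LinearEquiv.symm_apply_apply,
        Submodule.subtype_apply]
      exact hPr n
    rw [this]
    module
  · intro x y z
    have hz : ι z ∈ W := (b.equivFun.symm z).2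
    rw [hW, hX, hY] at hz
    rw [QuadraticMap.map_add Q, QuadraticMap.map_add Q, QuadraticMap.map_smul,
      QuadraticMap.map_smul, hv, hw, QuadraticMap.polar_smul_left, QuadraticMap.polar_smul_right,
      hvw, QuadraticMap.polar_add_left, QuadraticMap.polar_smul_left,
      QuadraticMap.polar_smul_left, QuadraticMap.polar_comm Q v, QuadraticMap.polar_comm Q w,
      hz.1, hz.2, QuadraticMap.comp_apply]
    simp
  · intro i
    rw [QuadraticMap.comp_apply]
    have : ι (Pi.single i 1) = b i := by
      simp [ι]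
    rw [this]
    exact hb i
  · have h1 : ∀ i, ι (Pi.single i 1) = b i := by
      intro i
      simp [ι]
    have h2 : QuadraticMap.polar (Q.comp ι) (Pi.single i0 1) (Pi.single i1 1) =
        QuadraticMap.polar Q (b i0) (b i1) := by
      simp only [QuadraticMap.polar, QuadraticMap.comp_apply, map_add, h1]
    rw [h2]
    exact hi

end Pool.Agent.V11268.QP
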